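import Mathlib

namespace H11.Dia

/-- the global map of the range-2 automaton with local rule `f`. -/
def G {S : Type} (f : S → S → S) (c : ℤ → S) : ℤ → S := fun p => f (c p) (c (p + 1))

/-- a diamond of length `l`: two words of length `l + 2` with the same first and last letters,
the same image, and different middle parts. -/
def HasDiamond {S : Type} (f : S → S → S) (l : ℕ) : Prop :=
  ∃ w w' : Fin (l + 2) → S, w 0 = w' 0 ∧ w (Fin.last (l + 1)) = w' (Fin.last (l + 1)) ∧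
    (∀ i : Fin (l + 1), f (w i.castSucc) (w i.succ) = f (w' i.castSucc) (w' i.succ)) ∧
    ∃ i : Fin l, w i.succ.castSucc ≠ w' i.succ.castSucc

/-- the least length of a diamond. -/
noncomputable def delta {S : Type} (f : S → S → S) : ℕ := sInf {l | 1 ≤ l ∧ HasDiamond f l}

/-- `D n`: the largest `delta` over non-surjective `n`-state automata. -/
noncomputable def D (n : ℕ) : ℕ :=
  sSup {d | ∃ f : Fin n → Fin n → Fin n, ¬ Function.Surjective (G f) ∧ delta f = d}

def f4 : Fin 4 → Fin 4 → Fin 4 := ![![0, 0, 1, 2], ![3, 3, 2, 1], ![1, 2, 0, 3], ![0, 1, 3, 2]]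

theorem orphan : ∀ a b c d e g : Fin 4,
    ¬ (f4 a b = 0 ∧ f4 b c = 1 ∧ f4 c d = 2 ∧ f4 d e = 0 ∧ f4 e g = 3) := by decide +kernel

theorem nonsurj : ¬ Function.Surjective (G f4) := by
  intro h
  obtain ⟨c, hc⟩ := h (fun p => if p = 1 then 1 else if p = 2 then 2 else if p = 4 then 3 else 0)
  have h0 := congrFun hc 0
  have h1 := congrFun hc 1
  have h2 := congrFun hc 2
  have h3 := congrFun hc 3
  have h4 := congrFun hc 4
  simp only [G] at h0 h1 h2 h3 h4
  norm_num at h0 h1 h2 h3 h4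
  exact orphan _ _ _ _ _ _ ⟨h0, h1, h2, h3, h4⟩

theorem d5 : HasDiamond f4 5 :=
  ⟨![0, 0, 3, 3, 2, 3, 0], ![0, 1, 2, 1, 1, 0, 0], by decide, by decide, by decide, 0, by decide⟩

/-- pairs reachable from the diagonal. -/
def Rs (R : Fin 4 → Fin 4 → Bool) (a b : Fin 4) : Bool :=
  decide (∃ p q, R p q = true ∧ f4 p a = f4 q b)
def R : ℕ → Fin 4 → Fin 4 → Bool
  | 0 => fun a b => decide (a = b)
  | n + 1 => Rs (R n)
def Bs (B : Fin 4 → Fin 4 → Bool) (a b : Fin 4) : Bool :=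
  decide (∃ p q, B p q = true ∧ f4 a p = f4 b q)
def B : ℕ → Fin 4 → Fin 4 → Bool
  | 0 => fun a b => decide (a = b)
  | n + 1 => Bs (B n)

theorem RB : ∀ i : Fin 5, ∀ j : Fin 5, (i : ℕ) + j ≤ 5 → ∀ a b : Fin 4,
    R i a b = true → B j a b = true → a = b := by decide +kernel

theorem reachR (l : ℕ) (w w' : Fin (l + 2) → Fin 4) (h0 : w 0 = w' 0)
    (h : ∀ i : Fin (l + 1), f4 (w i.castSucc) (w i.succ) = f4 (w' i.castSucc) (w' i.succ)) :
    ∀ (k : ℕ) (hk : k < l + 2), R k (w ⟨k, hk⟩) (w' ⟨k, hk⟩) = true := by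
  intro k
  induction k with
  | zero => intro hk; simpa [R] using h0
  | succ k ih =>
    intro hk
    simp only [R, Rs, decide_eq_true_eq]
    exact ⟨_, _, ih (by omega), h ⟨k, by omega⟩⟩

theorem reachB (l : ℕ) (w w' : Fin (l + 2) → Fin 4)
    (h0 : w (Fin.last (l + 1)) = w' (Fin.last (l + 1)))
    (h : ∀ i : Fin (l + 1), f4 (w i.castSucc) (w i.succ) = f4 (w' i.castSucc) (w' i.succ)) :
    ∀ (k : ℕ) (hk : k < l + 2),
      B k (w ⟨l + 1 - k, by omega⟩) (w' ⟨l + 1 - k, by omega⟩) = true := by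
  intro k
  induction k with
  | zero => intro hk; simp only [B, decide_eq_true_eq]; exact h0
  | succ k ih =>
    intro hk
    simp only [B, Bs, decide_eq_true_eq]
    refine ⟨_, _, ih (by omega), ?_⟩
    have := h ⟨l - k, by omega⟩
    have e1 : (⟨l + 1 - (k + 1), by omega⟩ : Fin (l + 2)) = (⟨l - k, by omega⟩ : Fin (l + 1)).castSucc :=
      Fin.ext (by simp)
    have e2 : (⟨l + 1 - k, by omega⟩ : Fin (l + 2)) = (⟨l - k, by omega⟩ : Fin (l + 1)).succ :=
      Fin.ext (by simp; omega)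
    rw [e1, e2]; exact this

theorem no_short (l : ℕ) (hl : l ≤ 4) : ¬ HasDiamond f4 l := by
  rintro ⟨w, w', h0, h1, h, i, hi⟩
  apply hi
  have hi2 := i.2
  have r := reachR l w w' h0 h (i + 1) (by omega)
  have b := reachB l w w' h1 h (l - i) (by omega)
  have e : (⟨l + 1 - (l - i), by omega⟩ : Fin (l + 2)) = ⟨i + 1, by omega⟩ := Fin.ext (by simp; omega)
  rw [e] at b
  exact RB ⟨i + 1, by omega⟩ ⟨l - i, by omega⟩ (by simp; omega) _ _ r b

theorem delta4 : delta f4 = 5 := by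
  have hm : 5 ∈ {l | 1 ≤ l ∧ HasDiamond f4 l} := ⟨by norm_num, d5⟩
  apply le_antisymm (Nat.sInf_le hm)
  by_contra hlt
  have := Nat.sInf_mem ⟨5, hm⟩
  exact no_short _ (by omega) this.2

end H11.Dia

open H11.Dia in
theorem Pool.Agent.Results.MP_b60c25_lc.Four.result :
    (∃ f : Fin 4 → Fin 4 → Fin 4, ¬ Function.Surjective (G f) ∧ HasDiamond f 5 ∧
      ∀ l ≤ 4, ¬ HasDiamond f l) ∧ 5 ≤ D 4 ∧ ¬ ∀ n, 2 ≤ n → D n = n - 1 := by
  have h5 : 5 ≤ D 4 := by
    apply le_csSup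
    · apply Set.Finite.bddAbove
      apply (Set.finite_range (fun f : Fin 4 → Fin 4 → Fin 4 => delta f)).subset
      rintro d ⟨f, -, rfl⟩
      exact ⟨f, rfl⟩
    · exact ⟨f4, nonsurj, delta4⟩
  refine ⟨⟨f4, nonsurj, d5, no_short⟩, h5, fun h => ?_⟩
  have := h 4 (by norm_num)
  omega
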